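import Pool.Agent.Q304.Ham.Main

/-!
MP_c030b7_lc, Q1 (answer: yes). There is a Mazurkiewicz set every rotation of which is the union of
two Hamel functions.
-/

namespace Pool.Agent.Results.MP_c030b7_lc.EveryDirection

open Pool.Agent.Q304.Ham

/-- There is a set `M` of points of the plane that meets every line in exactly two points and such
that for every angle `θ` the set `M` rotated by `θ` about the origin is the union of the graphs of
two Hamel functions. -/
theorem result : ∃ M : Set (ℝ × ℝ),
    (∀ a b c : ℝ, (a ≠ 0 ∨ b ≠ 0) → {p ∈ M | a * p.1 + b * p.2 = c}.ncard = 2) ∧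
    ∀ θ : ℝ, ∃ f g : ℝ → ℝ, Hamel f ∧ Hamel g ∧
      rot θ '' M = {p | p.2 = f p.1} ∪ {p | p.2 = g p.1} :=
  main

end Pool.Agent.Results.MP_c030b7_lc.EveryDirection
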